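import Pool.Agent.Helper74.RG.Defs

/-!
Rank additivity for duals.
-/

set_option autoImplicit false

namespace Pool.Agent.Helper90.RG

open Pool.Agent.Helper74.RG Module

section A

variable {s : ℕ} {k : Type} [Field k] {H : Type} [AddCommGroup H] [Module k H]
  {T : Fin s → Module.End k H}

/-- A2 -/
theorem rank_exact {C H' : Type} [AddCommGroup C] [Module k C] [AddCommGroup H'] [Module k H']
    {TC : Fin s → Module.End k C} {T' : Fin s → Module.End k H'}
    (hT : LN T) (hTC : LN TC) (hT' : LN T') (f : H →ₗ[k] C) (g : C →ₗ[k] H')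
    (hf : Function.Injective f) (hg : Function.Surjective g)
    (hfg : LinearMap.range f = LinearMap.ker g)
    (ef : ∀ i h, f (T i h) = TC i (f h)) (eg : ∀ i h, g (TC i h) = T' i (g h))
    [Module.Finite (MvPowerSeries (Fin s) k) (DR hTC)] :
    Module.Finite (MvPowerSeries (Fin s) k) (DR hT) ∧
    Module.Finite (MvPowerSeries (Fin s) k) (DR hT') ∧
    finrank (MvPowerSeries (Fin s) k) (DR hTC) =
      finrank (MvPowerSeries (Fin s) k) (DR hT) + finrank (MvPowerSeries (Fin s) k) (DR hT') := by
  set F := DR.map hT hTC f ef with hF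
  set Gm := DR.map hTC hT' g eg with hG
  have hFs : Function.Surjective F := by
    intro x
    obtain ⟨y, hy⟩ := LinearMap.dualMap_surjective_of_injective hf x.toDual
    exact ⟨DR.of hTC y, hy⟩
  have hGi : Function.Injective Gm := by
    intro x y hxy
    exact LinearMap.dualMap_injective_of_surjective hg hxy
  have hex : LinearMap.range Gm = LinearMap.ker F := by
    apply le_antisymm
    · rintro _ ⟨x, rfl⟩
      rw [LinearMap.mem_ker]
      apply DR.ext
      intro v
      change x.toDual (g (f v)) = 0
      have : f v ∈ LinearMap.ker g := by rw [← hfg]; exact ⟨v, rfl⟩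
      rw [LinearMap.mem_ker.mp this, map_zero]
    · intro y hy
      rw [LinearMap.mem_ker] at hy
      have h1 : ∀ c ∈ LinearMap.ker g, y.toDual c = 0 := by
        intro c hc
        rw [← hfg] at hc
        obtain ⟨v, rfl⟩ := hc
        exact congrArg (fun z : DR hT => z.toDual v) hy
      obtain ⟨σ, hσ⟩ := LinearMap.exists_rightInverse_of_surjective g
        (LinearMap.range_eq_top.mpr hg)
      refine ⟨DR.of hT' (y.toDual ∘ₗ σ), ?_⟩
      apply DR.ext
      intro c
      change y.toDual (σ (g c)) = y.toDual c
      have h2 : σ (g c) - c ∈ LinearMap.ker g := by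
        rw [LinearMap.mem_ker, map_sub, sub_eq_zero]
        exact LinearMap.congr_fun hσ (g c)
      have h3 := h1 _ h2
      rwa [map_sub, sub_eq_zero] at h3
  have i1 : Module.Finite (MvPowerSeries (Fin s) k) (DR hT) := Module.Finite.of_surjective F hFs
  have i2 : Module.Finite (MvPowerSeries (Fin s) k) (DR hT') := Module.Finite.of_injective Gm hGi
  refine ⟨i1, i2, ?_⟩
  have h1 := Submodule.finrank_quotient_add_finrank (LinearMap.ker F)
  have h2 := (F.quotKerEquivOfSurjective hFs).finrank_eq
  have h3 := (LinearEquiv.ofInjective Gm hGi).finrank_eq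
  rw [hex] at h3
  rw [← h1, h2, h3]

end A

end Pool.Agent.Helper90.RG
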